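import Mathlib

set_option autoImplicit false

/-!
# Shattered matchings in maximal intersecting families

For every `n ≥ 1` the largest `k` such that every maximal intersecting family of subsets of `[n]`
shatters a matching of size `k` satisfies `⌊n/3⌋ ≤ k*(n)` and `n ≤ 28 (n - 2 k*(n))²`; moreover
`q² + q + 1 ≤ (2 q + 1) (n - 2 k*(n))` for every prime power `q` with `q² + q + 1 ≤ n`.
-/

namespace Pool.Agent.Results.MP_5c4cbf_co.LinearOrder

open Finset

/-- `F` is an intersecting family. -/
def Intersecting {n : ℕ} (F : Finset (Finset (Fin n))) : Prop :=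
  ∀ A ∈ F, ∀ B ∈ F, (A ∩ B).Nonempty

/-- `F` is a maximal intersecting family. -/
def MaxInt {n : ℕ} (F : Finset (Finset (Fin n))) : Prop :=
  Intersecting F ∧ ∀ S, S ∉ F → ¬ Intersecting (insert S F)

/-- A matching of size `k`: the pairs `{M (i, false), M (i, true)}`, `i < k`, are pairwise disjoint
two-element sets. -/
def IsMatching {n k : ℕ} (M : Fin k × Bool → Fin n) : Prop := Function.Injective M

/-- The matching is shattered by `F`: every choice of one element of each pair is the trace of a
member of `F` on the union of the pairs. -/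
def Shattered {n k : ℕ} (F : Finset (Finset (Fin n))) (M : Fin k × Bool → Fin n) : Prop :=
  ∀ c : Fin k → Bool, ∃ A ∈ F, A ∩ univ.image M = univ.image (fun i => M (i, c i))

/-- Every maximal intersecting family of subsets of `[n]` shatters a matching of size `k`. -/
def Always (n k : ℕ) : Prop :=
  ∀ F : Finset (Finset (Fin n)), MaxInt F → ∃ M : Fin k × Bool → Fin n, IsMatching M ∧ Shattered F M

/-- The largest `k` with `Always n k`. -/
noncomputable def kstar (n : ℕ) : ℕ := sSup {k : ℕ | Always n k}

variable {n k : ℕ}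

/-- A maximal intersecting family contains a set or its complement. -/
theorem mem_or_compl (hn : 1 ≤ n) {F : Finset (Finset (Fin n))} (hF : MaxInt F)
    (S : Finset (Fin n)) : S ∈ F ∨ Sᶜ ∈ F := by
  have key : ∀ S : Finset (Fin n), S ∉ F → S = ∅ ∨ ∃ A ∈ F, A ⊆ Sᶜ := by
    intro S hS
    have h := hF.2 S hS
    by_contra hcon
    push Not at hcon
    apply h
    intro A hA B hB
    have h0 : S.Nonempty := hcon.1
    have h1 : ∀ A ∈ F, (A ∩ S).Nonempty := by
      intro A hA
      by_contra hne
      rw [not_nonempty_iff_eq_empty] at hne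
      apply hcon.2 A hA
      intro x hx
      rw [mem_compl]
      intro hxS
      have : x ∈ A ∩ S := mem_inter.2 ⟨hx, hxS⟩
      rw [hne] at this
      exact absurd this (notMem_empty x)
    rw [mem_insert] at hA hB
    rcases hA with rfl | hA <;> rcases hB with rfl | hB
    · rwa [inter_self]
    · rw [inter_comm]; exact h1 _ hB
    · exact h1 _ hA
    · exact hF.1 _ hA _ hB
  by_contra hcon
  push Not at hcon
  obtain ⟨h1, h2⟩ := hcon
  have k1 := key S h1
  have k2 := key Sᶜ h2
  have hne : (univ : Finset (Fin n)) ≠ ∅ := by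
    have : (univ : Finset (Fin n)).card ≠ 0 := by rw [card_univ, Fintype.card_fin]; omega
    intro h
    rw [h] at this
    exact this card_empty
  have hemp : ∀ A ∈ F, A ≠ ∅ := by
    intro A hA h
    have := hF.1 A hA A hA
    rw [inter_self, h] at this
    exact absurd this not_nonempty_empty
  rcases k1 with rfl | ⟨A, hA, hAS⟩
  · rcases k2 with h | ⟨B, hB, hBS⟩
    · rw [compl_empty] at h
      exact hne h
    · rw [compl_compl] at hBS
      exact hemp B hB (subset_empty.1 hBS)
  · rcases k2 with h | ⟨B, hB, hBS⟩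
    · rw [h] at hAS
      exact hemp A hA (subset_empty.1 hAS)
    · rw [compl_compl] at hBS
      obtain ⟨x, hx⟩ := hF.1 A hA B hB
      rw [mem_inter] at hx
      exact (mem_compl.1 (hAS hx.1)) (hBS hx.2)

/-- If no transversal is in `F`, then the matching is shattered. -/
theorem shattered_of (hn : 1 ≤ n) {F : Finset (Finset (Fin n))} (hF : MaxInt F)
    {M : Fin k × Bool → Fin n} (hM : IsMatching M)
    (h : ∀ c : Fin k → Bool, univ.image (fun i => M (i, c i)) ∉ F) : Shattered F M := by
  intro c
  have h1 := (mem_or_compl hn hF (univ.image (fun i => M (i, !(c i))))).resolve_left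
    (h fun i => !(c i))
  refine ⟨_, h1, ?_⟩
  ext x
  simp only [mem_inter, mem_compl, mem_image, mem_univ, true_and]
  constructor
  · rintro ⟨hx, ⟨i, b⟩, rfl⟩
    refine ⟨i, ?_⟩
    have hb : b ≠ !(c i) := fun hb => hx ⟨i, by rw [← hb]⟩
    have : c i = b := by
      cases b <;> cases hc : c i <;> simp_all
    rw [this]
  · rintro ⟨i, rfl⟩
    refine ⟨?_, ⟨(i, c i), rfl⟩⟩
    rintro ⟨j, hj⟩
    have := hM hj
    rw [Prod.mk.injEq] at this
    obtain ⟨rfl, h2⟩ := this
    cases hc : c j <;> simp [hc] at h2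

/-- A transversal of a shattered matching contains no member of `F`. -/
theorem not_subset {F : Finset (Finset (Fin n))} (hF : Intersecting F)
    {M : Fin k × Bool → Fin n} (hM : IsMatching M) (hs : Shattered F M) (c : Fin k → Bool)
    {L : Finset (Fin n)} (hL : L ∈ F) : ¬ L ⊆ univ.image (fun i => M (i, c i)) := by
  intro hsub
  obtain ⟨A, hA, hAM⟩ := hs fun i => !(c i)
  obtain ⟨x, hx⟩ := hF A hA L hL
  rw [mem_inter] at hx
  have h1 := hsub hx.2
  rw [mem_image] at h1
  obtain ⟨i, -, hi⟩ := h1
  have h2 : x ∈ A ∩ univ.image M := mem_inter.2 ⟨hx.1, mem_image.2 ⟨(i, c i), mem_univ _, hi⟩⟩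
  rw [hAM, mem_image] at h2
  obtain ⟨j, -, hj⟩ := h2
  have := hM (hi.trans hj.symm)
  rw [Prod.mk.injEq] at this
  obtain ⟨rfl, h2⟩ := this
  cases hc : c i <;> simp [hc] at h2

/-- There is a matching of size `k` inside every set with at least `2 k` elements. -/
theorem exists_matching (S : Finset (Fin n)) (h : 2 * k ≤ S.card) :
    ∃ M : Fin k × Bool → Fin n, IsMatching M ∧ ∀ p, M p ∈ S := by
  have hc : Fintype.card (Fin k × Bool) ≤ Fintype.card S := by
    rw [Fintype.card_prod, Fintype.card_fin, Fintype.card_bool, Fintype.card_coe]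
    omega
  obtain ⟨f⟩ := Function.Embedding.nonempty_of_card_le hc
  exact ⟨fun p => (f p : Fin n), fun p q hpq => f.injective (Subtype.ext hpq), fun p => (f p).2⟩

/-- The lower bound. -/
theorem always_of (hn : 1 ≤ n) (h : 3 * k ≤ n) : Always n k := by
  intro F hF
  by_cases hA : ∃ A ∈ F, A.card ≤ k
  · obtain ⟨A, hA, hAk⟩ := hA
    obtain ⟨M, hM, hMA⟩ := exists_matching (k := k) Aᶜ (by
      rw [card_compl, Fintype.card_fin]; omega)
    refine ⟨M, hM, shattered_of hn hF hM fun c hc => ?_⟩
    obtain ⟨x, hx⟩ := hF.1 _ hc _ hA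
    rw [mem_inter, mem_image] at hx
    obtain ⟨⟨i, -, rfl⟩, h2⟩ := hx
    exact mem_compl.1 (hMA (i, c i)) h2
  · push Not at hA
    obtain ⟨M, hM, -⟩ := exists_matching (k := k) (univ : Finset (Fin n)) (by
      rw [card_univ, Fintype.card_fin]; omega)
    refine ⟨M, hM, shattered_of hn hF hM fun c hc => ?_⟩
    have h1 := hA _ hc
    have h2 : (univ.image (fun i => M (i, c i))).card ≤ k :=
      card_image_le.trans (by rw [card_univ, Fintype.card_fin])
    omega

/-- Every intersecting family is contained in a maximal one. -/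
theorem exists_max (L : Finset (Finset (Fin n))) (hL : Intersecting L) :
    ∃ F, L ⊆ F ∧ MaxInt F := by
  obtain ⟨F, hLF, hF⟩ := (Set.toFinite {F : Finset (Finset (Fin n)) | Intersecting F}).exists_le_maximal
    (show L ∈ {F : Finset (Finset (Fin n)) | Intersecting F} from hL)
  refine ⟨F, hLF, hF.1, fun S hS hI => hS ?_⟩
  have : insert S F ⊆ F := hF.2 hI (subset_insert S F)
  exact this (mem_insert_self S F)


/-- The trivial upper bound. -/
theorem two_mul_lt (hn : 1 ≤ n) (h : Always n k) : 2 * k < n := by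
  let x₀ : Fin n := ⟨0, hn⟩
  have hI : Intersecting ({{x₀}} : Finset (Finset (Fin n))) := by
    intro A hA B hB
    rw [mem_singleton] at hA hB
    rw [hA, hB, inter_self]
    exact singleton_nonempty _
  obtain ⟨F, hLF, hF⟩ := exists_max _ hI
  obtain ⟨M, hM, hs⟩ := h F hF
  have hx : x₀ ∉ univ.image M := by
    intro hx
    rw [mem_image] at hx
    obtain ⟨⟨i, b⟩, -, hib⟩ := hx
    refine not_subset hF.1 hM hs (fun _ => b) (hLF (mem_singleton_self _)) ?_
    intro y hy
    rw [mem_singleton] at hy
    rw [hy, ← hib]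
    exact mem_image.2 ⟨i, mem_univ _, rfl⟩
  have h1 : (insert x₀ (univ.image M)).card ≤ n := by
    have := card_le_univ (insert x₀ (univ.image M))
    rwa [Fintype.card_fin] at this
  rw [card_insert_of_notMem hx, card_image_of_injective _ hM, card_univ, Fintype.card_prod,
    Fintype.card_fin, Fintype.card_bool] at h1
  omega

open Configuration in
/-- The upper bound from a finite projective plane inside `[n]`. -/
theorem plane_bound {P L : Type} [Fintype P] [Fintype L] [Membership P L] [ProjectivePlane P L]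
    (e : P ↪ Fin n) (h : Always n k) :
    Fintype.card P ≤ (2 * ProjectivePlane.order P L + 1) * (n - 2 * k) := by
  classical
  let pts : L → Finset (Fin n) := fun l => (univ.filter (fun p : P => p ∈ l)).image e
  have hpts : ∀ (p : P) (l : L), p ∈ l → e p ∈ pts l := fun p l hp =>
    mem_image.2 ⟨p, mem_filter.2 ⟨mem_univ _, hp⟩, rfl⟩
  have hpts' : ∀ (p : P) (l : L), e p ∈ pts l → p ∈ l := by
    intro p l hp
    obtain ⟨q, hq, hqp⟩ := mem_image.1 hp
    rw [← e.injective hqp]
    exact (mem_filter.1 hq).2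
  have hI : Intersecting (univ.image pts) := by
    intro A hA B hB
    obtain ⟨l, -, rfl⟩ := mem_image.1 hA
    obtain ⟨m, -, rfl⟩ := mem_image.1 hB
    by_cases hlm : l = m
    · subst hlm
      have h2 := ProjectivePlane.two_lt_pointCount (P := P) l
      have h3 : 0 < Nat.card {p : P // p ∈ l} := lt_trans (by norm_num) h2
      have : Nonempty {p : P // p ∈ l} := (Nat.card_pos_iff.1 h3).1
      obtain ⟨p, hp⟩ := this
      exact ⟨e p, mem_inter.2 ⟨hpts p l hp, hpts p l hp⟩⟩
    · obtain ⟨h1, h2⟩ := HasPoints.mkPoint_ax (P := P) hlm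
      exact ⟨e (HasPoints.mkPoint hlm), mem_inter.2 ⟨hpts _ _ h1, hpts _ _ h2⟩⟩
  obtain ⟨F, hLF, hF⟩ := exists_max _ hI
  obtain ⟨M, hM, hs⟩ := h F hF
  let U : Finset P := univ.filter (fun p => e p ∉ univ.image M)
  let I : Finset (Fin k) := univ.filter (fun i => ∀ b, ∃ p, e p = M (i, b))
  let L₁ : Finset L := U.biUnion (fun p => univ.filter (fun l => p ∈ l))
  let L₂ : Finset L := I.biUnion (fun i => univ.filter (fun l => ∀ b, M (i, b) ∈ pts l))
  have hcover : (univ : Finset L) ⊆ L₁ ∪ L₂ := by
    intro l _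
    by_contra hl
    rw [mem_union, not_or] at hl
    have hl1 : ∀ p, p ∈ l → e p ∈ univ.image M := by
      intro p hp
      by_contra hpM
      exact hl.1 (mem_biUnion.2 ⟨p, mem_filter.2 ⟨mem_univ _, hpM⟩,
        mem_filter.2 ⟨mem_univ _, hp⟩⟩)
    have hl2 : ∀ i, ¬ ∀ b, M (i, b) ∈ pts l := by
      intro i hi
      refine hl.2 (mem_biUnion.2 ⟨i, mem_filter.2 ⟨mem_univ _, fun b => ?_⟩,
        mem_filter.2 ⟨mem_univ _, hi⟩⟩)
      obtain ⟨p, -, hp⟩ := mem_image.1 (hi b)
      exact ⟨p, hp⟩
    refine not_subset hF.1 hM hs (fun i => decide (M (i, true) ∈ pts l))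
      (hLF (mem_image_of_mem pts (mem_univ l))) ?_
    intro x hx
    obtain ⟨p, hp, rfl⟩ := mem_image.1 hx
    have hpl : p ∈ l := (mem_filter.1 hp).2
    obtain ⟨⟨i, b⟩, -, hib⟩ := mem_image.1 (hl1 p hpl)
    refine mem_image.2 ⟨i, mem_univ _, ?_⟩
    cases b with
    | true =>
      have : M (i, true) ∈ pts l := by rw [hib]; exact hx
      rw [decide_eq_true this, hib]
    | false =>
      have h0 : M (i, false) ∈ pts l := by rw [hib]; exact hx
      have : M (i, true) ∉ pts l := by
        intro h1
        refine hl2 i fun b => ?_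
        cases b
        · exact h0
        · exact h1
      rw [decide_eq_false this, hib]
  have hc1 : L₁.card ≤ U.card * (ProjectivePlane.order P L + 1) := by
    refine card_biUnion_le_card_mul _ _ _ fun p _ => le_of_eq ?_
    rw [← ProjectivePlane.lineCount_eq L p, lineCount, Nat.card_eq_fintype_card,
      Fintype.card_subtype]
  have hc2 : L₂.card ≤ I.card * 1 := by
    refine card_biUnion_le_card_mul _ _ _ fun i hi => ?_
    rw [card_le_one]
    intro l hl m hm
    have h1 := (mem_filter.1 hl).2
    have h2 := (mem_filter.1 hm).2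
    obtain ⟨p, hp⟩ := (mem_filter.1 hi).2 false
    obtain ⟨p', hp'⟩ := (mem_filter.1 hi).2 true
    have a1 : p ∈ l := hpts' p l (by rw [hp]; exact h1 false)
    have a2 : p' ∈ l := hpts' p' l (by rw [hp']; exact h1 true)
    have a3 : p ∈ m := hpts' p m (by rw [hp]; exact h2 false)
    have a4 : p' ∈ m := hpts' p' m (by rw [hp']; exact h2 true)
    rcases Nondegenerate.eq_or_eq a1 a2 a3 a4 with h3 | h3
    · exfalso
      rw [h3] at hp
      have := hM (hp.symm.trans hp')
      simp at this
    · exact h3
  have hc3 : 2 * I.card + U.card ≤ Fintype.card P := by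
    let J : Finset P := univ.filter (fun p => ∃ i ∈ I, ∃ b, M (i, b) = e p)
    have hJU : Disjoint J U := by
      rw [disjoint_left]
      intro p hp hpU
      obtain ⟨i, -, b, hib⟩ := (mem_filter.1 hp).2
      exact (mem_filter.1 hpU).2 (mem_image.2 ⟨(i, b), mem_univ _, hib⟩)
    have h1 : ((I ×ˢ (univ : Finset Bool)).image M).card ≤ (J.image e).card := by
      refine card_le_card ?_
      intro x hx
      obtain ⟨⟨i, b⟩, hib, rfl⟩ := mem_image.1 hx
      have hi : i ∈ I := (mem_product.1 hib).1
      obtain ⟨p, hp⟩ := (mem_filter.1 hi).2 b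
      exact mem_image.2 ⟨p, mem_filter.2 ⟨mem_univ _, i, hi, b, hp.symm⟩, hp⟩
    rw [card_image_of_injective _ hM, card_image_of_injective _ e.injective, card_product,
      card_univ, Fintype.card_bool] at h1
    have h2 : (J ∪ U).card ≤ Fintype.card P := card_le_univ _
    rw [card_union_of_disjoint hJU] at h2
    omega
  have hc4 : U.card + 2 * k ≤ n := by
    have h1 : Disjoint (U.image e) (univ.image M) := by
      rw [disjoint_left]
      intro x hx hxM
      obtain ⟨p, hp, rfl⟩ := mem_image.1 hx
      exact (mem_filter.1 hp).2 hxM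
    have h2 : (U.image e ∪ univ.image M).card ≤ n := by
      have := card_le_univ (U.image e ∪ univ.image M)
      rwa [Fintype.card_fin] at this
    rw [card_union_of_disjoint h1, card_image_of_injective _ e.injective,
      card_image_of_injective _ hM, card_univ, Fintype.card_prod, Fintype.card_fin,
      Fintype.card_bool] at h2
    omega
  have hc5 : Fintype.card P ≤ L₁.card + L₂.card := by
    rw [ProjectivePlane.card_points_eq_card_lines (P := P) (L := L), ← card_univ]
    exact (card_le_card hcover).trans (card_union_le _ _)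
  have hfin : Fintype.card P ≤ (2 * ProjectivePlane.order P L + 1) * U.card := by
    have : U.card * (ProjectivePlane.order P L + 1) = U.card * ProjectivePlane.order P L + U.card := by
      ring
    have h3 : (2 * ProjectivePlane.order P L + 1) * U.card =
        2 * (U.card * ProjectivePlane.order P L) + U.card := by ring
    omega
  refine hfin.trans (Nat.mul_le_mul_left _ ?_)
  omega

/-- The upper bound for prime powers. -/
theorem prime_power_bound (h : Always n k) (q : ℕ) (hq : IsPrimePow q) (hqn : q ^ 2 + q + 1 ≤ n) :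
    q ^ 2 + q + 1 ≤ (2 * q + 1) * (n - 2 * k) := by
  classical
  obtain ⟨p, r, hp, hr, rfl⟩ := hq
  have hp' : p.Prime := hp.nat_prime
  have : Fact p.Prime := ⟨hp'⟩
  let K := GaloisField p r
  let _ : Fintype K := Fintype.ofFinite K
  have hK : Nat.card K = p ^ r := GaloisField.card p r hr.ne'
  let _ : Fintype (Projectivization K (Fin 3 → K)) := Fintype.ofFinite _
  have hcard : Fintype.card (Projectivization K (Fin 3 → K)) = (p ^ r) ^ 2 + p ^ r + 1 := by
    rw [← Nat.card_eq_fintype_card, Projectivization.card_of_finrank K (Fin 3 → K) (n := 3) (by simp),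
      hK]
    simp [sum_range_succ]
    ring
  have hord := Configuration.ProjectivePlane.card_points (Projectivization K (Fin 3 → K))
    (Projectivization K (Fin 3 → K))
  rw [hcard] at hord
  have ho : Configuration.ProjectivePlane.order (Projectivization K (Fin 3 → K))
      (Projectivization K (Fin 3 → K)) = p ^ r := by
    rcases lt_trichotomy (Configuration.ProjectivePlane.order (Projectivization K (Fin 3 → K))
      (Projectivization K (Fin 3 → K))) (p ^ r) with h1 | h1 | h1
    · nlinarith
    · exact h1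
    · nlinarith
  obtain ⟨e⟩ := Function.Embedding.nonempty_of_card_le (α := Projectivization K (Fin 3 → K))
    (β := Fin n) (by rw [hcard, Fintype.card_fin]; exact hqn)
  have := plane_bound (L := Projectivization K (Fin 3 → K)) e h
  rwa [hcard, ho] at this

/-- The quadratic form of the upper bound. -/
theorem square_bound (hn : 1 ≤ n) (h : Always n k) : n ≤ 28 * (n - 2 * k) ^ 2 := by
  have h0 := two_mul_lt hn h
  have h1 : 1 ≤ n - 2 * k := by omega
  have h1' : 1 ≤ (n - 2 * k) ^ 2 := Nat.one_le_pow _ _ h1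
  by_cases hn7 : n < 7
  · omega
  -- the largest `s` with `4 s² + 2 s + 1 ≤ n`
  have hex : ∃ s, 1 ≤ s ∧ 4 * s ^ 2 + 2 * s + 1 ≤ n ∧ n < 4 * (s + 1) ^ 2 + 2 * (s + 1) + 1 := by
    have hP : ∃ t, n < 4 * t ^ 2 + 2 * t + 1 := ⟨n, by nlinarith⟩
    have hfind := Nat.find_spec hP
    have hmin := fun t (ht : t < Nat.find hP) => Nat.find_min hP ht
    have h2 : 2 ≤ Nat.find hP := by
      rw [Nat.le_find_iff]
      intro m hm
      interval_cases m <;> omega
    refine ⟨Nat.find hP - 1, by omega, ?_, ?_⟩
    · exact not_lt.1 (hmin (Nat.find hP - 1) (by omega))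
    · have : Nat.find hP - 1 + 1 = Nat.find hP := by omega
      rw [this]
      exact hfind
  obtain ⟨s, hs1, hs2, hs3⟩ := hex
  obtain ⟨p, hp, hsp, hps⟩ := Nat.exists_prime_lt_and_le_two_mul s (by omega)
  have hpn : p ^ 2 + p + 1 ≤ n := by nlinarith
  have h3 := prime_power_bound h p hp.isPrimePow hpn
  set D := n - 2 * k with hD
  -- `p ≤ 2 D`
  have h4 : p ≤ 2 * D := by
    by_contra hcon
    push Not at hcon
    have : 2 * D + 1 ≤ p := hcon
    nlinarith
  have h5 : s + 1 ≤ 2 * D := by omega
  have h6 : (s + 1) ^ 2 ≤ (2 * D) ^ 2 := Nat.pow_le_pow_left h5 2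
  nlinarith

theorem result : ∀ n : ℕ, 1 ≤ n →
    IsGreatest {k : ℕ | Always n k} (kstar n) ∧
    n / 3 ≤ kstar n ∧ 2 * kstar n < n ∧ n ≤ 28 * (n - 2 * kstar n) ^ 2 ∧
    ∀ q : ℕ, IsPrimePow q → q ^ 2 + q + 1 ≤ n →
      q ^ 2 + q + 1 ≤ (2 * q + 1) * (n - 2 * kstar n) := by
  intro n hn
  have hne : {k : ℕ | Always n k}.Nonempty := ⟨0, always_of hn (by omega)⟩
  have hbdd : BddAbove {k : ℕ | Always n k} := ⟨n, fun k hk => by
    have := two_mul_lt hn hk
    omega⟩
  have hmem : Always n (kstar n) := Nat.sSup_mem hne hbdd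
  refine ⟨⟨hmem, fun k hk => le_csSup hbdd hk⟩, ?_, two_mul_lt hn hmem, square_bound hn hmem,
    fun q hq hqn => prime_power_bound hmem q hq hqn⟩
  exact le_csSup hbdd (always_of hn (by omega))

end Pool.Agent.Results.MP_5c4cbf_co.LinearOrder
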